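import Pool.Agent.H13.L.S8.TH107.AT.Alg
import Pool.Agent.H13.L.S8.TH107.RF.LIcons
import Pool.Agent.H13.L.S8.W649.ZL.Lead
import Pool.Agent.H13.L.S8.TH714.PF.Fol

/-!
Kernel dimensions over amenable locally indicable groups are integers.
-/

set_option autoImplicit false
set_option linter.unusedSectionVars false

open scoped InnerProductSpace ENNReal Pointwise
open Filter Topology

namespace Pool.Agent.TH107.AT

open Pool.Agent.H80R2
open Pool.Agent.H80R2.BC (L2 GMat vdim IsTr LInv Equi act kerA)
open Pool.Agent.H812R3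
open Pool.Agent.W656.VA
open Pool.Agent.TH107.RF (LI)
open Pool.Agent.TH714.PF (Fol)

variable {ι κ μ G : Type} [Group G] [Fintype ι] [Fintype κ] [Fintype μ]

theorem ra_inj (hG : LI G) {u : MonoidAlgebra ℂ G} (hu : u ≠ 0)
    (φ : L2 (κ × G)) (k : κ) (h : ∀ g, ra u (fun h => φ (k, h)) g = 0) (g : G) :
    φ (k, g) = 0 := by
  have hinj : Function.Injective (fun p : G × Unit => ((k, p.1⁻¹) : κ × G)) := by
    rintro ⟨a, ⟨⟩⟩ ⟨b, ⟨⟩⟩ hab
    simp only [Prod.mk.injEq, inv_inj, true_and] at hab
    rw [hab]
  let f : Pool.Agent.W649.ZL.EE G Unit := KP.pull _ hinj φ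
  have hf : ∀ x, f (x, ()) = φ (k, x⁻¹) := fun x => rfl
  have h1 : Pool.Agent.W649.ZL.cop u.coeff f = 0 := by
    ext ⟨x, ⟨⟩⟩
    rw [Pool.Agent.W649.ZL.cop_apply]
    have h2 := h x⁻¹
    rw [ra_apply, Finsupp.sum] at h2
    change _ = (0 : ℂ)
    rw [← h2]
    refine Finset.sum_congr rfl fun t _ => ?_
    rw [hf]
    congr 3
    group
  have h2 : f = 0 := by
    apply Pool.Agent.W649.ZL.LI_injective _ G hG u.coeff rfl
      (fun h0 => hu (MonoidAlgebra.coeff_eq_zero.1 h0))
    rw [h1, map_zero]
  have h3 : f (g⁻¹, ()) = 0 := by rw [h2]; rfl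
  rw [hf, inv_inv] at h3
  exact h3

/-- the left Ore condition -/
theorem ore (hnz : NoZeroDivisors (MonoidAlgebra ℂ G)) (hF : Fol G) (p q : MonoidAlgebra ℂ G)
    (hp : p ≠ 0) : ∃ u v : MonoidAlgebra ℂ G, u ≠ 0 ∧ u * q = v * p := by
  classical
  set Θ := p.coeff.support ∪ q.coeff.support with hΘ
  obtain ⟨Φ, hΦ, hcard0⟩ := hF.ex Θ (1 / 2) (by norm_num)
  set Ψ := Φ * Θ with hΨ
  have hcard : Ψ.card < 2 * Φ.card := by
    have h1 : (0 : ℝ) < Φ.card := by exact_mod_cast hΦ.card_pos
    have h3 : ((Φ * Θ).card : ℝ) < 2 * Φ.card := by linarith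
    exact_mod_cast h3
  let E : ({g // g ∈ Φ} → ℂ) →ₗ[ℂ] MonoidAlgebra ℂ G :=
    { toFun := fun u => ∑ g : {g // g ∈ Φ}, MonoidAlgebra.single (g : G) (u g)
      map_add' := by
        intro u v
        rw [← Finset.sum_add_distrib]
        refine Finset.sum_congr rfl fun g _ => ?_
        rw [Pi.add_apply, MonoidAlgebra.single_add]
      map_smul' := by
        intro c u
        rw [RingHom.id_apply, Finset.smul_sum]
        refine Finset.sum_congr rfl fun g _ => ?_
        rw [Pi.smul_apply, MonoidAlgebra.smul_single] }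
  have hEc : ∀ (u : {g // g ∈ Φ} → ℂ) (g : {g // g ∈ Φ}), (E u).coeff (g : G) = u g := by
    intro u g
    change (∑ g : {g // g ∈ Φ}, MonoidAlgebra.single (g : G) (u g)).coeff (g : G) = u g
    rw [MonoidAlgebra.coeff_sum, Finsupp.finset_sum_apply, Finset.sum_eq_single g]
    · rw [MonoidAlgebra.coeff_single, Finsupp.single_eq_same]
    · intro b _ hb
      rw [MonoidAlgebra.coeff_single, Finsupp.single_apply, if_neg]
      intro h
      exact hb (Subtype.ext h)
    · intro h
      exact absurd (Finset.mem_univ _) h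
  have hEs : ∀ (u : {g // g ∈ Φ} → ℂ), (E u).coeff.support ⊆ Φ := by
    intro u x hx
    by_contra hcon
    rw [Finsupp.mem_support_iff] at hx
    apply hx
    change (∑ g : {g // g ∈ Φ}, MonoidAlgebra.single (g : G) (u g)).coeff x = 0
    rw [MonoidAlgebra.coeff_sum, Finsupp.finset_sum_apply]
    refine Finset.sum_eq_zero fun g _ => ?_
    rw [MonoidAlgebra.coeff_single, Finsupp.single_apply, if_neg]
    rintro rfl
    exact hcon g.2
  let T : (({g // g ∈ Φ} → ℂ) × ({g // g ∈ Φ} → ℂ)) →ₗ[ℂ] ({g // g ∈ Ψ} → ℂ) :=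
    { toFun := fun w x => (E w.1 * q - E w.2 * p).coeff (x : G)
      map_add' := by
        intro w w'
        funext x
        simp only [Prod.fst_add, Prod.snd_add, map_add, add_mul, Pi.add_apply]
        rw [← Finsupp.add_apply, ← MonoidAlgebra.coeff_add]
        congr 2
        abel
      map_smul' := by
        intro c w
        funext x
        simp only [Prod.smul_fst, Prod.smul_snd, map_smul, RingHom.id_apply, Pi.smul_apply,
          smul_mul_assoc]
        rw [← smul_sub]
        rfl }
  have hker : LinearMap.ker T ≠ ⊥ := by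
    apply LinearMap.ker_ne_bot_of_finrank_lt
    rw [Module.finrank_prod, Module.finrank_fintype_fun_eq_card, Module.finrank_fintype_fun_eq_card,
      Fintype.card_coe, Fintype.card_coe]
    omega
  obtain ⟨⟨u, v⟩, huv, hne⟩ := Submodule.exists_mem_ne_zero_of_ne_bot hker
  have hsup : ∀ (w : {g // g ∈ Φ} → ℂ) (a : MonoidAlgebra ℂ G), a.coeff.support ⊆ Θ →
      ∀ x, x ∉ Ψ → (E w * a).coeff x = 0 := by
    intro w a ha x hx
    by_contra hcon
    apply hx
    have h1 := MonoidAlgebra.support_coeff_mul_subset (E w) a (Finsupp.mem_support_iff.2 hcon)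
    rw [Finset.mem_mul] at h1
    obtain ⟨y, hy, z, hz, rfl⟩ := h1
    exact Finset.mem_mul.2 ⟨y, hEs w hy, z, ha hz, rfl⟩
  have heq : E u * q = E v * p := by
    rw [← sub_eq_zero]
    apply MonoidAlgebra.ext
    ext x
    by_cases hx : x ∈ Ψ
    · exact congrFun (LinearMap.mem_ker.1 huv) ⟨x, hx⟩
    · rw [MonoidAlgebra.coeff_sub, Finsupp.sub_apply,
        hsup u q Finset.subset_union_right x hx, hsup v p Finset.subset_union_left x hx, sub_zero]
      rfl
  refine ⟨E u, E v, ?_, heq⟩
  intro hu
  apply hne
  have hv : E v = 0 := by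
    rw [hu, zero_mul] at heq
    exact (mul_eq_zero.1 heq.symm).resolve_right hp
  have h1 : u = 0 := by
    funext g
    rw [← hEc u g, hu]
    rfl
  have h2 : v = 0 := by
    funext g
    rw [← hEc v g, hv]
    rfl
  rw [h1, h2]
  rfl

theorem kr_mop (X : Matrix κ ι (MonoidAlgebra ℂ G)) :
    kr (mop X) = kerA (fun k i => (X k i).coeff) := (kerA_eq _).symm

theorem mem_kr_mop (X : Matrix κ ι (MonoidAlgebra ℂ G)) (x : L2 (ι × G)) :
    x ∈ kr (mop X) ↔ ∀ k g, ∑ i, ra (X k i) (fun h => x (i, h)) g = 0 := by
  rw [mem_kr]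
  constructor
  · intro h k g
    rw [← mop_apply, h]
    rfl
  · intro h
    ext ⟨k, g⟩
    rw [mop_apply]
    exact h k g

/-- a zero column -/
theorem zero_col {n : ℕ} (B : Matrix κ (Fin (n + 1)) (MonoidAlgebra ℂ G))
    (hB : ∀ k, B k (Fin.last n) = 0) :
    vdim (kr (mop B)) = vdim (kr (mop (Matrix.of fun k (i : Fin n) => B k i.castSucc))) + 1 := by
  classical
  let A' : GMat Empty (Fin 1) G := fun e _ => e.elim
  have h1 : (fun k i => (B k i).coeff : GMat κ (Fin (n + 1)) G) =
      ri (Equiv.sumEmpty κ Empty).symm (finSumFinEquiv (m := n) (n := 1)).symm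
        (bd (fun k (i : Fin n) => (B k i.castSucc).coeff) A') := by
    funext k i
    obtain ⟨s, rfl⟩ := (finSumFinEquiv (m := n) (n := 1)).surjective i
    rw [ri, Equiv.symm_apply_apply, Equiv.sumEmpty_symm_apply]
    rcases s with i | j
    · rfl
    · have hj : j = 0 := Subsingleton.elim _ _
      subst hj
      have : (finSumFinEquiv (m := n) (n := 1)) (Sum.inr 0) = Fin.last n := rfl
      rw [this, hB]
      rfl
  rw [kr_mop, kr_mop, h1, vdim_ri, vdim_bd]
  congr 1
  have h2 : kerA A' = ⊤ := by
    rw [eq_top_iff]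
    intro x _ e
    exact e.elim
  rw [h2, vdim_top]
  simp

/-- **integrality** over amenable locally indicable groups -/
theorem integral_ore (hG : LI G) (hF : Fol G) (n : ℕ) :
    ∀ (κ : Type) [Fintype κ] (A : Matrix κ (Fin n) (MonoidAlgebra ℂ G)),
      ∃ z : ℤ, vdim (kr (mop A)) = z := by
  have hnz : NoZeroDivisors (MonoidAlgebra ℂ G) :=
    ⟨fun {x y} h => Pool.Agent.TH107.RF.nzd_of_LI hG ℂ x y h⟩
  induction n with
  | zero =>
    intro κ _ A
    refine ⟨0, ?_⟩
    have h1 := vdim_nonneg (kr (mop A))
    have h2 := vdim_le_card (kr (mop A))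
    rw [Fintype.card_fin] at h2
    push_cast at h2 ⊢
    linarith
  | succ n ih =>
    intro κ _ A
    by_cases h0 : ∀ k, A k (Fin.last n) = 0
    · obtain ⟨z, hz⟩ := ih κ (Matrix.of fun k (i : Fin n) => A k i.castSucc)
      refine ⟨z + 1, ?_⟩
      rw [zero_col A h0, hz]
      push_cast
      rfl
    · push Not at h0
      obtain ⟨k0, hk0⟩ := h0
      set p := A k0 (Fin.last n) with hp
      choose u v hu huv using fun k => ore hnz hF p (A k (Fin.last n)) hk0
      let B : Matrix κ (Fin (n + 1)) (MonoidAlgebra ℂ G) :=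
        Matrix.of fun k i => u k * A k i - v k * A k0 i
      have hB : ∀ k, B k (Fin.last n) = 0 := by
        intro k
        change u k * A k (Fin.last n) - v k * A k0 (Fin.last n) = 0
        rw [huv, sub_self]
      let R : Matrix Unit (Fin (n + 1)) (MonoidAlgebra ℂ G) := Matrix.of fun _ i => A k0 i
      obtain ⟨z, hz⟩ := ih κ (Matrix.of fun k (i : Fin n) => B k i.castSucc)
      have hK := zero_col B hB
      rw [hz] at hK
      have hBx : ∀ (x : L2 (Fin (n + 1) × G)) (k : κ) (g : G),
          ∑ i, ra (B k i) (fun h => x (i, h)) g =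
            ra (u k) (fun h => mop A x (k, h)) g - ra (v k) (fun h => mop R x ((), h)) g := by
        intro x k g
        have e1 : (fun h => mop A x (k, h)) = ∑ i, ra (A k i) (fun h => x (i, h)) := by
          funext h
          rw [mop_apply, Finset.sum_apply]
        have e2 : (fun h => mop R x ((), h)) = ∑ i, ra (A k0 i) (fun h => x (i, h)) := by
          funext h
          rw [mop_apply, Finset.sum_apply]
          rfl
        rw [e1, e2, map_sum, map_sum, Finset.sum_apply, Finset.sum_apply,
          ← Finset.sum_sub_distrib]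
        refine Finset.sum_congr rfl fun i _ => ?_
        change ra (u k * A k i - v k * A k0 i) _ g = _
        rw [map_sub, map_mul, map_mul]
        rfl
      have hAB : kr (mop A) = kr (mop B) ⊓ kr (mop R) := by
        ext x
        rw [Submodule.mem_inf]
        constructor
        · intro hx
          have hx' := (mem_kr _ _).1 hx
          have hR : mop R x = 0 := by
            ext ⟨⟨⟩, g⟩
            rw [mop_apply]
            exact (mem_kr_mop A x).1 hx k0 g
          refine ⟨(mem_kr_mop B x).2 fun k g => ?_, (mem_kr _ _).2 hR⟩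
          rw [hBx, hx', hR]
          have e : (fun h => (0 : L2 (κ × G)) (k, h)) = 0 := rfl
          have e' : (fun h => (0 : L2 (Unit × G)) ((), h)) = 0 := rfl
          rw [e, e', map_zero, map_zero]
          simp
        · rintro ⟨hx1, hx2⟩
          have hR := (mem_kr _ _).1 hx2
          rw [mem_kr]
          ext ⟨k, g⟩
          apply ra_inj hG (hu k) (mop A x) k
          intro g
          have h3 := (mem_kr_mop B x).1 hx1 k g
          rw [hBx, hR] at h3
          have e' : (fun h => (0 : L2 (Unit × G)) ((), h)) = 0 := rfl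
          rw [e', map_zero] at h3
          simpa using h3
      have hrank := vdim_rank (isClosed_kr (mop B)) (linv_kr (equi_mop B)) (mop R) (equi_mop R)
      rw [← hAB] at hrank
      -- the image is dense
      let Ec : Matrix (Fin (n + 1)) Unit (MonoidAlgebra ℂ G) :=
        Matrix.of fun i _ => if i = Fin.last n then 1 else 0
      have hBE : B * Ec = 0 := by
        ext1 k j
        rw [Matrix.mul_apply, Finset.sum_eq_single (Fin.last n)]
        · rw [hB, zero_mul]; rfl
        · intro i _ hi
          change B k i * (if i = Fin.last n then 1 else 0) = 0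
          rw [if_neg hi, mul_zero]
        · intro h; exact absurd (Finset.mem_univ _) h
      have hRE : R * Ec = Matrix.of fun _ _ => p := by
        ext1 k j
        rw [Matrix.mul_apply, Finset.sum_eq_single (Fin.last n)]
        · change A k0 (Fin.last n) * (if Fin.last n = Fin.last n then 1 else 0) = p
          rw [if_pos rfl, mul_one]
        · intro i _ hi
          change A k0 i * (if i = Fin.last n then 1 else 0) = 0
          rw [if_neg hi, mul_zero]
        · intro h; exact absurd (Finset.mem_univ _) h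
      have htop : IsClosed ((⊤ : Submodule ℂ (L2 (Unit × G))) : Set (L2 (Unit × G))) :=
        isClosed_univ
      have hge := vdim_inj_le (K := (⊤ : Submodule ℂ (L2 (Unit × G)))) htop
        (fun _ _ _ _ _ => trivial) (mop (R * Ec)) (equi_mop _)
        (R := ((kr (mop B)).map
          (mop R : L2 (Fin (n + 1) × G) →ₗ[ℂ] L2 (Unit × G))).topologicalClosure)
        (Submodule.isClosed_topologicalClosure _)
        (by
          intro x _
          apply Submodule.le_topologicalClosure
          refine ⟨mop Ec x, ?_, ?_⟩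
          · change mop B (mop Ec x) = 0
            rw [← ContinuousLinearMap.comp_apply, ← mop_mul, hBE]
            ext ⟨k, g⟩
            rw [mop_apply]
            change ∑ i, ra (0 : MonoidAlgebra ℂ G) _ g = 0
            simp
          · rw [mop_mul]; rfl)
        (by
          intro x _ hx
          ext ⟨⟨⟩, g⟩
          apply ra_inj hG hk0 x ()
          intro g
          have h3 := congrArg (fun f : L2 (Unit × G) => f ((), g)) hx
          simp only [mop_apply, hRE] at h3
          simpa using h3)
      rw [vdim_top] at hge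
      have hle := vdim_le_card ((kr (mop B)).map
          (mop R : L2 (Fin (n + 1) × G) →ₗ[ℂ] L2 (Unit × G))).topologicalClosure
      rw [Fintype.card_unit] at hge hle
      refine ⟨z, ?_⟩
      push_cast at hge hle
      linarith

end Pool.Agent.TH107.AT
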